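import Mathlib
import Pool.Agent.Helper559.Mertens

set_option autoImplicit false

/-!
# The number of prime factors larger than `y`: two exponential moments
-/

namespace Pool.Agent.Run7.h330.FN

open Finset
open Pool.Agent.Helper559 (S)
open scoped ArithmeticFunction.vonMangoldt

/-- the number of different prime factors of `n` that are larger than `y` -/
def om (y n : ℕ) : ℕ := (n.primeFactors.filter (fun p => y < p)).card

/-- the primes in `(y, N]` -/
def Q (y N : ℕ) : Finset ℕ := (Icc 1 N).filter (fun p => p.Prime ∧ y < p)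

lemma om_eq {y n N : ℕ} (hn : n ≠ 0) (hN : n ≤ N) :
    om y n = ((Q y N).filter (fun p => p ∣ n)).card := by
  unfold om Q
  congr 1
  ext p
  simp only [mem_filter, Nat.mem_primeFactors, mem_Icc]
  constructor
  · rintro ⟨⟨h1, h2, h3⟩, h4⟩
    exact ⟨⟨⟨h1.one_lt.le, (Nat.le_of_dvd (Nat.pos_of_ne_zero hn) h2).trans hN⟩, h1, h4⟩, h2⟩
  · rintro ⟨⟨h0, h1, h4⟩, h2⟩
    exact ⟨⟨h1, h2, hn⟩, h4⟩

/-- the sum of `1/p` over the primes in `(y, N]` -/
lemma sum_Q_ge (y N : ℕ) : S N - S y ≤ ∑ p ∈ Q y N, (1 : ℝ) / p := by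
  unfold S
  have h1 : (Icc 1 N).filter Nat.Prime ⊆ (Icc 1 y).filter Nat.Prime ∪ Q y N := by
    intro p hp
    unfold Q
    simp only [mem_filter, mem_Icc, mem_union] at hp ⊢
    by_cases h : y < p
    · exact Or.inr ⟨hp.1, hp.2, h⟩
    · exact Or.inl ⟨⟨hp.1.1, by omega⟩, hp.2⟩
  have h2 : ∑ p ∈ (Icc 1 N).filter Nat.Prime, (1 : ℝ) / p ≤
      ∑ p ∈ (Icc 1 y).filter Nat.Prime, (1 : ℝ) / p + ∑ p ∈ Q y N, (1 : ℝ) / p := by
    refine (sum_le_sum_of_subset_of_nonneg h1 fun _ _ _ => by positivity).trans ?_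
    rw [← sum_union_inter]
    have : 0 ≤ ∑ p ∈ (Icc 1 y).filter Nat.Prime ∩ Q y N, (1 : ℝ) / p :=
      sum_nonneg fun _ _ => by positivity
    linarith
  linarith

lemma sum_Q_le (y N : ℕ) : ∑ p ∈ Q y N, (1 : ℝ) / p ≤ S N := by
  unfold S Q
  refine sum_le_sum_of_subset_of_nonneg ?_ fun _ _ _ => by positivity
  intro p hp
  simp only [mem_filter, mem_Icc] at hp ⊢
  exact ⟨hp.1, hp.2.1⟩

lemma card_dvd_le (d N : ℕ) (hd : 0 < d) :
    (((Icc 1 N).filter (fun n => d ∣ n)).card : ℝ) ≤ N / d := by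
  have h : ((Icc 1 N).filter (fun n => d ∣ n)).card = N / d := by
    have := Nat.Ioc_filter_dvd_card_eq_div N d
    rw [← this]
    congr 1
  rw [h]
  exact Nat.cast_div_le

/-- **Upper moment.** -/
theorem upper (y N : ℕ) {u : ℝ} (hu : 0 ≤ u) :
    ∑ n ∈ Icc 1 N, (1 + u) ^ om y n ≤ N * Real.exp (u * S N) := by
  have h1 : ∀ n ∈ Icc 1 N, (1 + u) ^ om y n =
      ∑ T ∈ (Q y N).powerset, if (∀ p ∈ T, p ∣ n) then u ^ T.card else 0 := by
    intro n hn
    have hn' := mem_Icc.1 hn
    rw [om_eq (by omega) hn'.2]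
    have e1 : (1 + u) ^ ((Q y N).filter (fun p => p ∣ n)).card =
        ∏ p ∈ Q y N, (1 + if p ∣ n then u else 0) := by
      rw [← prod_const, prod_filter]
      refine prod_congr rfl fun p _ => ?_
      split_ifs <;> simp
    rw [e1, prod_one_add]
    refine sum_congr rfl fun T _ => ?_
    rw [prod_ite_zero]
    simp
  rw [sum_congr rfl h1, sum_comm]
  have h2 : ∀ T ∈ (Q y N).powerset, ∑ n ∈ Icc 1 N, (if (∀ p ∈ T, p ∣ n) then u ^ T.card else 0) ≤
      N * ∏ p ∈ T, u / p := by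
    intro T hT
    rw [mem_powerset] at hT
    have hpr : ∀ p ∈ T, p.Prime := fun p hp => by
      have := hT hp
      unfold Q at this
      exact (mem_filter.1 this).2.1
    rw [← sum_filter, sum_const, nsmul_eq_mul]
    have e2 : (Icc 1 N).filter (fun n => ∀ p ∈ T, p ∣ n) =
        (Icc 1 N).filter (fun n => (∏ p ∈ T, p) ∣ n) := by
      refine filter_congr fun n _ => ?_
      constructor
      · intro h
        exact Finset.prod_primes_dvd n (fun p hp => (hpr p hp).prime) h
      · intro h p hp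
        exact (dvd_prod_of_mem _ hp).trans h
    have hpos : 0 < ∏ p ∈ T, p := prod_pos fun p hp => (hpr p hp).pos
    have e3 := card_dvd_le (∏ p ∈ T, p) N hpos
    rw [e2, prod_div_distrib, prod_const]
    push_cast at e3
    calc (((Icc 1 N).filter (fun n => (∏ p ∈ T, p) ∣ n)).card : ℝ) * u ^ T.card
        ≤ (N / ∏ p ∈ T, (p : ℝ)) * u ^ T.card :=
          mul_le_mul_of_nonneg_right e3 (by positivity)
      _ = N * (u ^ T.card / ∏ p ∈ T, (p : ℝ)) := by ring
  refine (sum_le_sum h2).trans ?_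
  rw [← mul_sum, ← prod_one_add]
  refine mul_le_mul_of_nonneg_left ?_ (by positivity)
  calc ∏ p ∈ Q y N, (1 + u / p) ≤ ∏ p ∈ Q y N, Real.exp (u / p) :=
        prod_le_prod (fun p _ => by positivity) fun p _ => by
          rw [add_comm]; exact Real.add_one_le_exp _
    _ = Real.exp (∑ p ∈ Q y N, u / p) := (Real.exp_sum _ _).symm
    _ ≤ Real.exp (u * S N) := by
        rw [Real.exp_le_exp]
        have : ∑ p ∈ Q y N, u / (p : ℝ) = u * ∑ p ∈ Q y N, (1 : ℝ) / p := by
          rw [mul_sum]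
          exact sum_congr rfl fun _ _ => by ring
        rw [this]
        exact mul_le_mul_of_nonneg_left (sum_Q_le y N) hu

/-! ### the lower moment -/

/-- the function `z ^ om y n / n` -/
noncomputable def g (y : ℕ) (z : ℝ) (n : ℕ) : ℝ := z ^ om y n / n

lemma om_one (y : ℕ) : om y 1 = 0 := by simp [om]

lemma om_mul {y m n : ℕ} (h : m.Coprime n) : om y (m * n) = om y m + om y n := by
  unfold om
  rw [h.primeFactors_mul, filter_union, card_union_of_disjoint]
  exact disjoint_filter_filter h.disjoint_primeFactors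

lemma om_prime_pow {y p k : ℕ} (hp : p.Prime) (hk : k ≠ 0) :
    om y (p ^ k) = if y < p then 1 else 0 := by
  unfold om
  rw [Nat.primeFactors_prime_pow hk hp, filter_singleton]
  split_ifs <;> simp

lemma om_dvd {y d n : ℕ} (hn : n ≠ 0) (h : d ∣ n) : om y d ≤ om y n :=
  card_le_card (filter_subset_filter _ (Nat.primeFactors_mono h hn))

lemma g_one (y : ℕ) (z : ℝ) : g y z 1 = 1 := by simp [g, om_one]

lemma g_mul {y : ℕ} {z : ℝ} {m n : ℕ} (h : m.Coprime n) : g y z (m * n) = g y z m * g y z n := by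
  unfold g
  rw [om_mul h, pow_add]
  push_cast
  rw [mul_div_mul_comm]

lemma g_nonneg {y : ℕ} {z : ℝ} (hz : 0 ≤ z) (n : ℕ) : 0 ≤ g y z n := by
  unfold g; positivity

/-- the value at primes -/
noncomputable def zz (y : ℕ) (z : ℝ) (p : ℕ) : ℝ := if y < p then z else 1

lemma g_prime_pow {y p : ℕ} {z : ℝ} (hp : p.Prime) (k : ℕ) :
    g y z (p ^ (k + 1)) = zz y z p * (1 / (p : ℝ)) * (1 / (p : ℝ)) ^ k := by
  unfold g zz
  rw [om_prime_pow hp (Nat.succ_ne_zero k)]
  push_cast
  have : (p : ℝ) ≠ 0 := by exact_mod_cast hp.ne_zero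
  rw [one_div, inv_pow, pow_succ]
  split_ifs <;> · field_simp

lemma hasSum_g {y p : ℕ} {z : ℝ} (hp : p.Prime) :
    HasSum (fun k : ℕ => g y z (p ^ k)) (1 + zz y z p / ((p : ℝ) - 1)) := by
  have hp1 : (1 : ℝ) < p := by exact_mod_cast hp.one_lt
  have hg : HasSum (fun k : ℕ => (1 / (p : ℝ)) ^ k) (1 - 1 / (p : ℝ))⁻¹ :=
    hasSum_geometric_of_lt_one (by positivity) (by rw [div_lt_one (by linarith)]; exact hp1)
  have h2 := hg.mul_left (zz y z p * (1 / (p : ℝ)))
  have h3 : (fun k : ℕ => zz y z p * (1 / (p : ℝ)) * (1 / (p : ℝ)) ^ k) =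
      fun k : ℕ => g y z (p ^ (k + 1)) := by
    funext k
    rw [g_prime_pow hp]
  rw [h3] at h2
  have h4 : zz y z p * (1 / (p : ℝ)) * (1 - 1 / (p : ℝ))⁻¹ = zz y z p / ((p : ℝ) - 1) := by
    have : (p : ℝ) - 1 ≠ 0 := by linarith
    have h0 : (p : ℝ) ≠ 0 := by linarith
    field_simp
  rw [h4] at h2
  have h5 := (hasSum_nat_add_iff' (f := fun k : ℕ => g y z (p ^ k))
    (g := 1 + zz y z p / ((p : ℝ) - 1)) 1).1 (by
      rw [sum_range_one, pow_zero, g_one]
      simpa using h2)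
  exact h5

lemma sum_g_le (y N : ℕ) {z : ℝ} (hz0 : 0 ≤ z) (hz1 : z ≤ 1) :
    ∑ k ∈ Icc 1 N, g y z k ≤ ∏ p ∈ (Icc 1 N).filter Nat.Prime, (1 + zz y z p / ((p : ℝ) - 1)) := by
  have hsum : ∀ {p : ℕ}, p.Prime → Summable (fun n : ℕ => ‖g y z (p ^ n)‖) := by
    intro p hp
    have := (hasSum_g (y := y) (z := z) hp).summable
    refine this.congr fun n => ?_
    rw [Real.norm_of_nonneg (g_nonneg hz0 _)]
  obtain ⟨h1, h2⟩ := EulerProduct.summable_and_hasSum_smoothNumbers_prod_primesBelow_tsum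
    (f := g y z) (g_one y z) (fun h => g_mul h) hsum (N + 1)
  have h3 : ∏ p ∈ (N + 1).primesBelow, ∑' n : ℕ, g y z (p ^ n) =
      ∏ p ∈ (Icc 1 N).filter Nat.Prime, (1 + zz y z p / ((p : ℝ) - 1)) := by
    have e : (N + 1).primesBelow = (Icc 1 N).filter Nat.Prime := by
      ext p
      simp only [Nat.mem_primesBelow, mem_filter, mem_Icc]
      constructor
      · rintro ⟨h, hp⟩; exact ⟨⟨hp.one_lt.le, by omega⟩, hp⟩
      · rintro ⟨h, hp⟩; exact ⟨by omega, hp⟩
    rw [e]
    refine prod_congr rfl fun p hp => ?_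
    exact (hasSum_g (mem_filter.1 hp).2).tsum_eq
  rw [← h3]
  have h4 : ∀ k ∈ Icc 1 N, k ∈ (N + 1).smoothNumbers := fun k hk => by
    rw [mem_Icc] at hk
    exact Nat.mem_smoothNumbers_of_lt (by omega) (by omega)
  have h5 : ∑ k ∈ Icc 1 N, g y z k =
      ∑ m ∈ (Icc 1 N).attach.map ⟨fun k => (⟨k.1, h4 k.1 k.2⟩ : (N + 1).smoothNumbers),
        fun a b h => by
          have := congrArg Subtype.val h
          exact Subtype.ext this⟩, g y z m := by
    rw [sum_map]
    simp only [Function.Embedding.coeFn_mk]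
    exact (sum_attach (Icc 1 N) (g y z)).symm
  rw [h5]
  exact sum_le_hasSum _ (fun m _ => g_nonneg hz0 _) h2

lemma sum_inv_mul_le (N : ℕ) : ∑ p ∈ (Icc 1 N).filter Nat.Prime,
    (1 / ((p : ℝ) - 1) - 1 / p) ≤ 1 := by
  have h1 : ∑ p ∈ (Icc 1 N).filter Nat.Prime, (1 / ((p : ℝ) - 1) - 1 / p) ≤
      ∑ p ∈ Icc 2 N, (1 / ((p : ℝ) - 1) - 1 / p) := by
    refine sum_le_sum_of_subset_of_nonneg ?_ ?_
    · intro p hp
      simp only [mem_filter, mem_Icc] at hp ⊢
      exact ⟨hp.2.two_le, hp.1.2⟩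
    · intro p hp _
      have h2 : (2 : ℝ) ≤ p := by exact_mod_cast (mem_Icc.1 hp).1
      have := one_div_le_one_div_of_le (a := (p : ℝ) - 1) (b := p) (by linarith) (by linarith)
      linarith
  refine h1.trans ?_
  rcases Nat.lt_or_ge N 2 with h | h
  · rw [Icc_eq_empty (by omega)]; simp
  have h3 : ∀ M : ℕ, 2 ≤ M → ∑ p ∈ Icc 2 M, (1 / ((p : ℝ) - 1) - 1 / p) = 1 - 1 / M := by
    intro M hM
    induction M, hM using Nat.le_induction with
    | base => simp; norm_num
    | succ M hM ih =>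
      rw [← insert_Icc_right_eq_Icc_add_one (by omega), sum_insert (by simp), ih]
      push_cast
      ring
  rw [h3 N h]
  have : (0 : ℝ) ≤ 1 / N := by positivity
  linarith

lemma prod_le (y N : ℕ) {z : ℝ} (hz0 : 0 ≤ z) (hz1 : z ≤ 1) :
    ∏ p ∈ (Icc 1 N).filter Nat.Prime, (1 + zz y z p / ((p : ℝ) - 1)) ≤
      Real.exp (S N + 1 - (1 - z) * (S N - S y)) := by
  have hp1 : ∀ p ∈ (Icc 1 N).filter Nat.Prime, (0 : ℝ) < (p : ℝ) - 1 := fun p hp => by
    have : (1 : ℝ) < p := by exact_mod_cast (mem_filter.1 hp).2.one_lt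
    linarith
  have hz : ∀ p, 0 ≤ zz y z p := fun p => by unfold zz; split_ifs <;> linarith
  calc ∏ p ∈ (Icc 1 N).filter Nat.Prime, (1 + zz y z p / ((p : ℝ) - 1))
      ≤ ∏ p ∈ (Icc 1 N).filter Nat.Prime, Real.exp (zz y z p / ((p : ℝ) - 1)) :=
        prod_le_prod (fun p hp => by have := hp1 p hp; have := hz p; positivity) fun p _ => by
          rw [add_comm]; exact Real.add_one_le_exp _
    _ = Real.exp (∑ p ∈ (Icc 1 N).filter Nat.Prime, zz y z p / ((p : ℝ) - 1)) :=
        (Real.exp_sum _ _).symm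
    _ ≤ _ := by
      rw [Real.exp_le_exp]
      have h1 : ∀ p ∈ (Icc 1 N).filter Nat.Prime, zz y z p / ((p : ℝ) - 1) ≤
          (1 / ((p : ℝ) - 1) - 1 / p) + 1 / p - (1 - z) * (if y < p then 1 / (p : ℝ) else 0) := by
        intro p hp
        have h := hp1 p hp
        unfold zz
        split_ifs with hy
        · have : 1 / (p : ℝ) ≤ 1 / ((p : ℝ) - 1) := one_div_le_one_div_of_le h (by linarith)
          have h2 : z / ((p : ℝ) - 1) = 1 / ((p : ℝ) - 1) - (1 - z) * (1 / ((p : ℝ) - 1)) := by ring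
          rw [h2]
          have := mul_le_mul_of_nonneg_left this (by linarith : 0 ≤ 1 - z)
          linarith
        · linarith
      refine (sum_le_sum h1).trans ?_
      rw [sum_sub_distrib, sum_add_distrib, ← mul_sum, ← sum_filter, filter_filter]
      have h2 := sum_inv_mul_le N
      have h3 := sum_Q_ge y N
      have h4 : (Icc 1 N).filter (fun p => p.Prime ∧ y < p) = Q y N := rfl
      rw [h4]
      have h5 := mul_le_mul_of_nonneg_left h3 (by linarith : 0 ≤ 1 - z)
      have h6 : ∑ p ∈ (Icc 1 N).filter Nat.Prime, (1 : ℝ) / p = S N := rfl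
      rw [h6]
      linarith

lemma psi_div (N k : ℕ) (hk : 1 ≤ k) :
    ∑ d ∈ Icc 1 (N / k), Λ d ≤ (Real.log 4 + 4) * (N / k) := by
  have h1 : ∑ d ∈ Icc 1 (N / k), Λ d = Chebyshev.psi ((N / k : ℕ) : ℝ) := by
    unfold Chebyshev.psi
    rw [Nat.floor_natCast]
    rfl
  rw [h1]
  have h2 := Chebyshev.psi_le_const_mul_self (x := ((N / k : ℕ) : ℝ)) (by positivity)
  refine h2.trans ?_
  refine mul_le_mul_of_nonneg_left Nat.cast_div_le ?_
  have := Real.log_nonneg (by norm_num : (1 : ℝ) ≤ 4)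
  linarith

/-- **Lower moment.** -/
theorem lower : ∃ C : ℝ, 0 < C ∧ ∀ (y N : ℕ) (z : ℝ), 2 ≤ N → 0 ≤ z → z ≤ 1 →
    ∑ n ∈ Icc 1 N, z ^ om y n ≤ C * N * Real.exp (-((1 - z) * (S N - S y))) := by
  obtain ⟨C0, hC0, hM⟩ := Pool.Agent.Helper559.mertens
  set c : ℝ := Real.log 4 + 4 with hc
  have hc0 : 0 < c := by
    have := Real.log_nonneg (by norm_num : (1 : ℝ) ≤ 4)
    rw [hc]; linarith
  refine ⟨(c + 1) * Real.exp (C0 + 1), by positivity, fun y N z hN hz0 hz1 => ?_⟩
  have hN0 : (0 : ℝ) < N := by positivity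
  have hlog : 0 < Real.log N := Real.log_pos (by exact_mod_cast (by omega : 1 < N))
  -- first step
  have h1 : Real.log N * ∑ n ∈ Icc 1 N, z ^ om y n ≤ (c + 1) * N * ∑ k ∈ Icc 1 N, g y z k := by
    have e1 : Real.log N * ∑ n ∈ Icc 1 N, z ^ om y n =
        ∑ n ∈ Icc 1 N, z ^ om y n * Real.log n +
          ∑ n ∈ Icc 1 N, z ^ om y n * Real.log (N / n) := by
      rw [mul_sum, ← sum_add_distrib]
      refine sum_congr rfl fun n hn => ?_
      have hn' : (0 : ℝ) < n := by exact_mod_cast (mem_Icc.1 hn).1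
      rw [Real.log_div hN0.ne' hn'.ne']
      ring
    have e2 : ∑ n ∈ Icc 1 N, z ^ om y n * Real.log (N / n) ≤ N * ∑ k ∈ Icc 1 N, g y z k := by
      rw [mul_sum]
      refine sum_le_sum fun n hn => ?_
      have hn' : (0 : ℝ) < n := by exact_mod_cast (mem_Icc.1 hn).1
      unfold g
      have : Real.log (N / n) ≤ N / n := by
        have := Real.log_le_sub_one_of_pos (x := (N : ℝ) / n) (by positivity)
        linarith
      calc z ^ om y n * Real.log (N / n) ≤ z ^ om y n * (N / n) :=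
            mul_le_mul_of_nonneg_left this (by positivity)
        _ = N * (z ^ om y n / n) := by ring
    have e3 : ∑ n ∈ Icc 1 N, z ^ om y n * Real.log n ≤ c * N * ∑ k ∈ Icc 1 N, g y z k := by
      have f1 : ∀ n ∈ Icc 1 N, z ^ om y n * Real.log n ≤
          ∑ k ∈ Icc 1 N, if k ∣ n then z ^ om y k * Λ (n / k) else 0 := by
        intro n hn
        have hn' := mem_Icc.1 hn
        rw [← ArithmeticFunction.vonMangoldt_sum, mul_sum, ← Nat.sum_div_divisors, ← sum_filter]
        refine (sum_le_sum (f := fun d => z ^ om y n * Λ (n / d))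
          (g := fun d => z ^ om y d * Λ (n / d)) fun d hd => ?_).trans ?_
        · refine mul_le_mul_of_nonneg_right ?_ ArithmeticFunction.vonMangoldt_nonneg
          exact pow_le_pow_of_le_one hz0 hz1 (om_dvd (by omega) (Nat.dvd_of_mem_divisors hd))
        · refine sum_le_sum_of_subset_of_nonneg ?_ ?_
          · intro d hd
            have h := Nat.dvd_of_mem_divisors hd
            rw [mem_filter, mem_Icc]
            exact ⟨⟨Nat.pos_of_mem_divisors hd, (Nat.le_of_dvd hn'.1 h).trans hn'.2⟩, h⟩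
          · intro d _ _
            exact mul_nonneg (by positivity) ArithmeticFunction.vonMangoldt_nonneg
      refine (sum_le_sum f1).trans ?_
      rw [sum_comm, mul_sum]
      refine sum_le_sum fun k hk => ?_
      have hk' := mem_Icc.1 hk
      have hk0 : (0 : ℝ) < k := by exact_mod_cast hk'.1
      rw [← sum_filter]
      have f2 : ∑ n ∈ (Icc 1 N).filter (fun n => k ∣ n), z ^ om y k * Λ (n / k) =
          z ^ om y k * ∑ d ∈ Icc 1 (N / k), Λ d := by
        rw [mul_sum]
        symm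
        refine sum_bij (fun d _ => k * d) ?_ ?_ ?_ ?_
        · intro d hd
          rw [mem_Icc] at hd
          rw [mem_filter, mem_Icc]
          refine ⟨⟨Nat.mul_pos hk'.1 hd.1, ?_⟩, dvd_mul_right _ _⟩
          exact (Nat.mul_le_mul_left k hd.2).trans (Nat.mul_div_le N k)
        · intro a _ b _ h
          exact Nat.eq_of_mul_eq_mul_left hk'.1 h
        · intro n hn
          rw [mem_filter, mem_Icc] at hn
          obtain ⟨d, rfl⟩ := hn.2
          refine ⟨d, ?_, rfl⟩
          rw [mem_Icc]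
          constructor
          · rcases Nat.eq_zero_or_pos d with h | h
            · rw [h] at hn; omega
            · exact h
          · rw [Nat.le_div_iff_mul_le hk'.1, mul_comm]
            exact hn.1.2
        · intro d _
          rw [Nat.mul_div_cancel_left _ hk'.1]
      rw [f2]
      have f3 := psi_div N k hk'.1
      unfold g
      calc z ^ om y k * ∑ d ∈ Icc 1 (N / k), Λ d ≤ z ^ om y k * (c * (N / k)) :=
            mul_le_mul_of_nonneg_left f3 (by positivity)
        _ = c * N * (z ^ om y k / k) := by ring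
    rw [e1]
    calc _ ≤ c * N * ∑ k ∈ Icc 1 N, g y z k + N * ∑ k ∈ Icc 1 N, g y z k := add_le_add e3 e2
      _ = _ := by ring
  have h2 : ∑ k ∈ Icc 1 N, g y z k ≤ Real.exp (S N + 1 - (1 - z) * (S N - S y)) :=
    (sum_g_le y N hz0 hz1).trans (prod_le y N hz0 hz1)
  have h3 : Real.exp (S N) ≤ Real.exp C0 * Real.log N := by
    have h := hM N hN
    rw [abs_le] at h
    calc Real.exp (S N) ≤ Real.exp (C0 + Real.log (Real.log N)) := by
          rw [Real.exp_le_exp]; linarith
      _ = Real.exp C0 * Real.log N := by rw [Real.exp_add, Real.exp_log hlog]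
  have h4 : Real.exp (S N + 1 - (1 - z) * (S N - S y)) =
      Real.exp (S N) * (Real.exp 1 * Real.exp (-((1 - z) * (S N - S y)))) := by
    rw [← Real.exp_add, ← Real.exp_add]
    congr 1
    ring
  have h5 : Real.log N * ∑ n ∈ Icc 1 N, z ^ om y n ≤
      Real.log N * ((c + 1) * Real.exp (C0 + 1) * N * Real.exp (-((1 - z) * (S N - S y)))) := by
    refine h1.trans ?_
    calc (c + 1) * N * ∑ k ∈ Icc 1 N, g y z k
        ≤ (c + 1) * N * (Real.exp (S N) * (Real.exp 1 * Real.exp (-((1 - z) * (S N - S y))))) := by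
          rw [← h4]
          exact mul_le_mul_of_nonneg_left h2 (by positivity)
      _ ≤ (c + 1) * N * ((Real.exp C0 * Real.log N) *
            (Real.exp 1 * Real.exp (-((1 - z) * (S N - S y))))) := by
          refine mul_le_mul_of_nonneg_left ?_ (by positivity)
          exact mul_le_mul_of_nonneg_right h3 (by positivity)
      _ = _ := by rw [Real.exp_add]; ring
  exact le_of_mul_le_mul_left h5 hlog

end Pool.Agent.Run7.h330.FN
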