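import Mathlib
import Pool.Agent.Run7.h330.FN.Core

set_option autoImplicit false

/-!
# Large deviations of the number of prime factors larger than `2 ^ (m + 2)`
-/

namespace Pool.Agent.Run7.h330.FN

open Finset Filter Topology
open Pool.Agent.Helper559 (S)

/-- upper tail -/
lemma tail_up (y N : ℕ) {u t : ℝ} (hu : 0 ≤ u) :
    (((Icc 1 N).filter (fun n => t ≤ (om y n : ℝ))).card : ℝ) ≤
      N * Real.exp (u * S N - t * Real.log (1 + u)) := by
  have h := upper y N hu
  have h1 : (((Icc 1 N).filter (fun n => t ≤ (om y n : ℝ))).card : ℝ) *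
      Real.exp (t * Real.log (1 + u)) ≤ ∑ n ∈ Icc 1 N, (1 + u) ^ om y n := by
    rw [← nsmul_eq_mul, ← sum_const]
    refine (sum_le_sum fun n hn => ?_).trans
      (sum_le_sum_of_subset_of_nonneg (filter_subset _ _) fun _ _ _ => by positivity)
    have hn' := (mem_filter.1 hn).2
    have hl : 0 ≤ Real.log (1 + u) := Real.log_nonneg (by linarith)
    calc Real.exp (t * Real.log (1 + u)) ≤ Real.exp (om y n * Real.log (1 + u)) := by
          rw [Real.exp_le_exp]
          exact mul_le_mul_of_nonneg_right hn' hl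
      _ = (1 + u) ^ om y n := by
          rw [Real.exp_nat_mul, Real.exp_log (by linarith)]
  have h2 := h1.trans h
  rw [Real.exp_sub, ← mul_div_assoc, le_div_iff₀ (Real.exp_pos _)]
  exact h2

/-- lower tail -/
lemma tail_low : ∃ C : ℝ, 0 < C ∧ ∀ (y N : ℕ) (v t : ℝ), 2 ≤ N → 0 ≤ v → v < 1 →
    (((Icc 1 N).filter (fun n => (om y n : ℝ) ≤ t)).card : ℝ) ≤
      C * N * Real.exp (-(v * (S N - S y)) - t * Real.log (1 - v)) := by
  obtain ⟨C, hC, h⟩ := lower
  refine ⟨C, hC, fun y N v t hN hv0 hv1 => ?_⟩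
  have h0 := h y N (1 - v) hN (by linarith) (by linarith)
  have h1 : (((Icc 1 N).filter (fun n => (om y n : ℝ) ≤ t)).card : ℝ) *
      Real.exp (t * Real.log (1 - v)) ≤ ∑ n ∈ Icc 1 N, (1 - v) ^ om y n := by
    rw [← nsmul_eq_mul, ← sum_const]
    have hv : 0 < 1 - v := by linarith
    refine (sum_le_sum fun n hn => ?_).trans
      (sum_le_sum_of_subset_of_nonneg (filter_subset _ _) fun _ _ _ => by positivity)
    have hn' := (mem_filter.1 hn).2
    have hl : Real.log (1 - v) ≤ 0 := Real.log_nonpos hv.le (by linarith)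
    calc Real.exp (t * Real.log (1 - v)) ≤ Real.exp (om y n * Real.log (1 - v)) := by
          rw [Real.exp_le_exp]
          nlinarith
      _ = (1 - v) ^ om y n := by
          rw [Real.exp_nat_mul, Real.exp_log hv]
  have h2 := h1.trans h0
  rw [Real.exp_sub, ← mul_div_assoc, le_div_iff₀ (Real.exp_pos _)]
  have e : 1 - (1 - v) = v := by ring
  rw [e] at h2
  exact h2

/-- `(1 + v) log (1 + v) ≥ v + v² / (2 + v)` -/
lemma log_up {v : ℝ} (hv : 0 ≤ v) : v + v ^ 2 / (2 + v) ≤ (1 + v) * Real.log (1 + v) := by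
  have h := Real.le_log_one_add_of_nonneg hv
  have h2 : (1 + v) * (2 * v / (v + 2)) ≤ (1 + v) * Real.log (1 + v) :=
    mul_le_mul_of_nonneg_left h (by linarith)
  refine le_trans (le_of_eq ?_) h2
  have : v + 2 ≠ 0 := by positivity
  have h3 : 2 + v ≠ 0 := by positivity
  field_simp
  ring

/-- `(1 - v) log (1 - v) ≥ - v + v² / 2 - 2 v³` -/
lemma log_low {v : ℝ} (hv : 0 ≤ v) (hv1 : v ≤ 1 / 2) :
    -v + v ^ 2 / 2 - 2 * v ^ 3 ≤ (1 - v) * Real.log (1 - v) := by
  have h := Real.abs_log_sub_add_sum_range_le (x := v) (by rw [abs_of_nonneg hv]; linarith) 2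
  rw [abs_of_nonneg hv] at h
  have h1 := (abs_le.1 h).1
  simp only [sum_range_succ, sum_range_zero] at h1
  norm_num at h1
  have h2 : v ^ 3 / (1 - v) ≤ 2 * v ^ 3 := by
    rw [div_le_iff₀ (by linarith)]
    nlinarith [pow_nonneg hv 3]
  have h3 : -v - v ^ 2 / 2 - 2 * v ^ 3 ≤ Real.log (1 - v) := by
    linarith
  have h4 := mul_le_mul_of_nonneg_left h3 (by linarith : 0 ≤ 1 - v)
  refine le_trans ?_ h4
  nlinarith [pow_nonneg hv 3, pow_nonneg hv 4]

/-- the size of the relative deviation -/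
lemma dev_tendsto : Tendsto (fun m : ℕ => Real.sqrt (m * Real.log m) / m * (Real.log (m + 2) + 1))
    atTop (𝓝 0) := by
  have h1 : Tendsto (fun m : ℕ => 14 * (m : ℝ) ^ (-(1 / 8 : ℝ))) atTop (𝓝 0) := by
    have := ((tendsto_rpow_neg_atTop (by norm_num : (0 : ℝ) < 1 / 8)).comp
      (tendsto_natCast_atTop_atTop (R := ℝ))).const_mul 14
    simpa using this
  refine squeeze_zero' ?_ ?_ h1
  · filter_upwards [eventually_ge_atTop 1] with m hm
    have : (1 : ℝ) ≤ m := by exact_mod_cast hm
    have h2 : 0 ≤ Real.log ((m : ℝ) + 2) := Real.log_nonneg (by linarith)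
    positivity
  · filter_upwards [eventually_ge_atTop 1] with m hm
    have hm1 : (1 : ℝ) ≤ m := by exact_mod_cast hm
    have hm0 : (0 : ℝ) < m := by linarith
    set r : ℝ := (m : ℝ) ^ (1 / 8 : ℝ) with hr
    have hr1 : 1 ≤ r := Real.one_le_rpow hm1 (by norm_num)
    have hr8 : r ^ 8 = m := by
      rw [hr, ← Real.rpow_natCast, ← Real.rpow_mul hm0.le]
      norm_num
    have hr2 : (m : ℝ) ^ (1 / 4 : ℝ) = r ^ 2 := by
      rw [hr, ← Real.rpow_natCast, ← Real.rpow_mul hm0.le]
      norm_num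
    have hl : Real.log m ≤ 4 * r ^ 2 := by
      have := Real.log_le_rpow_div hm0.le (by norm_num : (0 : ℝ) < 1 / 4)
      rw [hr2] at this
      linarith
    have hl2 : Real.log ((m : ℝ) + 2) + 1 ≤ 7 * r ^ 2 := by
      have h3 : Real.log ((m : ℝ) + 2) ≤ Real.log (3 * m) := Real.log_le_log (by linarith) (by linarith)
      rw [Real.log_mul (by norm_num) hm0.ne'] at h3
      have h4 : Real.log 3 ≤ 2 := by
        have := Real.log_le_sub_one_of_pos (x := 3) (by norm_num)
        linarith
      nlinarith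
    have hs : Real.sqrt (m * Real.log m) ≤ 2 * r ^ 5 := by
      rw [show (2 * r ^ 5 : ℝ) = Real.sqrt ((2 * r ^ 5) ^ 2) from (Real.sqrt_sq (by positivity)).symm]
      refine Real.sqrt_le_sqrt ?_
      calc (m : ℝ) * Real.log m ≤ m * (4 * r ^ 2) := mul_le_mul_of_nonneg_left hl hm0.le
        _ = (2 * r ^ 5) ^ 2 := by rw [← hr8]; ring
    have h5 : Real.sqrt (m * Real.log m) / m ≤ 2 * r ^ 5 / m := by gcongr
    have h6 : (m : ℝ) ^ (-(1 / 8 : ℝ)) = 1 / r := by
      rw [Real.rpow_neg hm0.le, ← hr, one_div]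
    rw [h6]
    calc Real.sqrt (m * Real.log m) / m * (Real.log (m + 2) + 1)
        ≤ (2 * r ^ 5 / m) * (7 * r ^ 2) := by
          have h2 : 0 ≤ Real.log ((m : ℝ) + 2) := Real.log_nonneg (by linarith)
          exact mul_le_mul h5 hl2 (by linarith) (by positivity)
      _ = 14 * (1 / r) := by
          rw [← hr8]
          have : r ≠ 0 := by positivity
          field_simp
          ring

/-- **The tails.** -/
theorem tails {κ : ℝ} (hκ : Real.sqrt (2 * Real.log 2) < κ) (K : ℝ) :
    ∃ η C : ℝ, 0 < η ∧ 0 < C ∧ ∀ᶠ m : ℕ in atTop, ∀ N : ℕ, 2 ≤ N →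
      |Real.log (Real.log N) - m * Real.log 2| ≤ K →
      (((Icc 1 N).filter (fun n => κ * Real.sqrt (m * Real.log m) <
        |(om (2 ^ (m + 2)) n : ℝ) - m * Real.log 2|)).card : ℝ) ≤ C * N * (m : ℝ) ^ (-(1 + η)) := by
  obtain ⟨C0, hC0, hM⟩ := Pool.Agent.Helper559.mertens
  obtain ⟨C1, hC1, hlow⟩ := tail_low
  have hl2 : 0 < Real.log 2 := Real.log_pos (by norm_num)
  have hl2' : Real.log 2 < 1 := by
    have := Real.log_two_lt_d9
    linarith
  have hκ0 : 0 < κ := (Real.sqrt_nonneg _).trans_lt hκ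
  have hκ2 : 2 * Real.log 2 < κ ^ 2 := by
    have := Real.lt_sq_of_sqrt_lt hκ
    exact this
  set a : ℝ := κ ^ 2 / (2 * Real.log 2) with ha
  have ha1 : 1 < a := by
    rw [ha, lt_div_iff₀ (by positivity)]
    linarith
  set η : ℝ := (a - 1) / 2 with hη
  have hη0 : 0 < η := by rw [hη]; linarith
  refine ⟨η, Real.exp 1 + C1 * Real.exp 2, hη0, by positivity, ?_⟩
  -- the size of v
  set V : ℕ → ℝ := fun m => κ * Real.sqrt (m * Real.log m) / (m * Real.log 2) with hV
  have hVt : Tendsto (fun m => V m * (Real.log (m + 2) + 1)) atTop (𝓝 0) := by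
    have := dev_tendsto.const_mul (κ / Real.log 2)
    rw [mul_zero] at this
    refine this.congr' ?_
    filter_upwards [eventually_ge_atTop 1] with m hm
    have hm0 : (m : ℝ) ≠ 0 := by positivity
    simp only [hV]
    field_simp
  have hV0 : Tendsto V atTop (𝓝 0) := by
    refine squeeze_zero' (Eventually.of_forall fun m => ?_) ?_ hVt
    · simp only [hV]; positivity
    · filter_upwards [eventually_ge_atTop 1] with m hm
      have h0 : 0 ≤ V m := by simp only [hV]; positivity
      have h2 : 0 ≤ Real.log ((m : ℝ) + 2) := Real.log_nonneg (by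
        have : (0 : ℝ) ≤ m := by positivity
        linarith)
      nlinarith
  set D : ℝ := |K| + 2 * C0 + 1 with hD
  have hD1 : 1 ≤ D := by rw [hD]; have := abs_nonneg K; linarith
  have e1 : ∀ᶠ m : ℕ in atTop, V m * (Real.log (m + 2) + 1) ≤ 1 / D :=
    (hVt.eventually (gt_mem_nhds (by positivity : 0 < 1 / D))).mono fun m h => h.le
  have e2 : ∀ᶠ m : ℕ in atTop, V m ≤ min (1 / 4) (η / (4 * a)) :=
    (hV0.eventually (gt_mem_nhds (by positivity : 0 < min (1 / 4) (η / (4 * a))))).mono
      fun m h => h.le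
  filter_upwards [e1, e2, eventually_ge_atTop 2] with m h1 h2 hm N hN hNm
  have hm2 : (2 : ℝ) ≤ m := by exact_mod_cast hm
  have hm0 : (0 : ℝ) < m := by linarith
  have hlm : 0 < Real.log m := Real.log_pos (by linarith)
  set v : ℝ := V m with hv
  set L : ℝ := m * Real.log 2 with hL
  set d : ℝ := κ * Real.sqrt (m * Real.log m) with hd
  have hL0 : 0 < L := by positivity
  have hv0 : 0 ≤ v := by simp only [hv, hV]; positivity
  have hdv : d = L * v := by
    simp only [hv, hV, hL, hd]
    field_simp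
  have hv4 : v ≤ 1 / 4 := h2.trans (min_le_left _ _)
  have hva : 4 * a * v ≤ η := by
    have := h2.trans (min_le_right _ _)
    rw [le_div_iff₀ (by positivity)] at this
    linarith
  have hLv : L * v ^ 2 = 2 * a * Real.log m := by
    have h3 : Real.sqrt (m * Real.log m) ^ 2 = m * Real.log m := Real.sq_sqrt (by positivity)
    simp only [hv, hV, hL, ha]
    rw [div_pow, mul_pow, h3]
    field_simp
  have hSN := hM N hN
  rw [abs_le] at hSN hNm
  have hKa := abs_le.1 (le_refl |K|)
  have hy2 : 2 ≤ 2 ^ (m + 2) := by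
    calc 2 = 2 ^ 1 := by norm_num
      _ ≤ 2 ^ (m + 2) := Nat.pow_le_pow_right (by norm_num) (by omega)
  have hSy := (abs_le.1 (hM (2 ^ (m + 2)) hy2)).2
  have hlog2 : 0 ≤ Real.log ((m : ℝ) + 2) := Real.log_nonneg (by linarith)
  have hSy' : S (2 ^ (m + 2)) ≤ Real.log (m + 2) + C0 := by
    push_cast at hSy
    rw [Real.log_pow] at hSy
    push_cast at hSy
    have h3 : Real.log (((m : ℝ) + 2) * Real.log 2) ≤ Real.log (m + 2) :=
      Real.log_le_log (by positivity) (by nlinarith)
    linarith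
  have hvlog : v * Real.log (m + 2) + v * D ≤ 1 + 1 := by
    rw [le_div_iff₀ (by linarith)] at h1
    have h4 : v * (Real.log (m + 2) + 1) ≤ 1 := by
      have h5 : 0 ≤ v * (Real.log (m + 2) + 1) := by positivity
      nlinarith
    have h5 : v * D ≤ 1 := by
      have h6 : v * D ≤ v * (Real.log (m + 2) + 1) * D := by
        have : 0 ≤ v * D := by positivity
        nlinarith
      linarith
    have : 0 ≤ v := hv0
    linarith
  -- upper tail
  have hup := tail_up (2 ^ (m + 2)) N (u := v) (t := L + d) hv0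
  have hE1 : v * S N - (L + d) * Real.log (1 + v) ≤ 1 + -(1 + η) * Real.log m := by
    have f1 : v * S N ≤ v * (L + |K| + C0) := mul_le_mul_of_nonneg_left (by linarith) hv0
    have f2 : (L + d) * Real.log (1 + v) = L * ((1 + v) * Real.log (1 + v)) := by rw [hdv]; ring
    have f3 := mul_le_mul_of_nonneg_left (log_up hv0) hL0.le
    have f4 : L * (v + v ^ 2 / (2 + v)) = L * v + 2 * a * Real.log m / (2 + v) := by
      rw [← hLv]; ring
    have f5 : (1 + η) * Real.log m ≤ 2 * a * Real.log m / (2 + v) := by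
      rw [le_div_iff₀ (by linarith)]
      have : (1 + η) * (2 + v) ≤ 2 * a := by
        have h6 : a = 1 + 2 * η := by rw [hη]; ring
        nlinarith
      nlinarith
    have f6 : v * (|K| + C0) ≤ 1 := by
      have : v * (|K| + C0) ≤ v * D := mul_le_mul_of_nonneg_left (by rw [hD]; linarith) hv0
      have h5 : v * D ≤ 1 := by
        rw [le_div_iff₀ (by linarith)] at h1
        have h6 : v * D ≤ v * (Real.log (m + 2) + 1) * D := by
          have : 0 ≤ v * D := by positivity
          nlinarith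
        linarith
      linarith
    rw [f2]
    nlinarith
  -- lower tail
  have hlo := hlow (2 ^ (m + 2)) N v (L - d) hN hv0 (by linarith)
  have hE2 : -(v * (S N - S (2 ^ (m + 2)))) - (L - d) * Real.log (1 - v) ≤
      2 + -(1 + η) * Real.log m := by
    have f1 : v * (L - |K| - C0) ≤ v * S N := mul_le_mul_of_nonneg_left (by linarith) hv0
    have f1' : v * S (2 ^ (m + 2)) ≤ v * (Real.log (m + 2) + C0) :=
      mul_le_mul_of_nonneg_left hSy' hv0
    have f2 : (L - d) * Real.log (1 - v) = L * ((1 - v) * Real.log (1 - v)) := by rw [hdv]; ring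
    have f3 := mul_le_mul_of_nonneg_left (log_low hv0 (by linarith)) hL0.le
    have f4 : L * (-v + v ^ 2 / 2 - 2 * v ^ 3) =
        -(L * v) + a * Real.log m - 4 * a * v * Real.log m := by
      have : L * (-v + v ^ 2 / 2 - 2 * v ^ 3) = -(L * v) + L * v ^ 2 / 2 - 2 * v * (L * v ^ 2) := by
        ring
      rw [this, hLv]; ring
    have f5 : (1 + η) * Real.log m ≤ a * Real.log m - 4 * a * v * Real.log m := by
      have h6 : a = 1 + 2 * η := by rw [hη]; ring
      nlinarith
    have f6 : v * (|K| + 2 * C0) ≤ v * D := mul_le_mul_of_nonneg_left (by rw [hD]; linarith) hv0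
    rw [f2]
    nlinarith
  have hsub : (Icc 1 N).filter (fun n => d < |(om (2 ^ (m + 2)) n : ℝ) - L|) ⊆
      (Icc 1 N).filter (fun n => L + d ≤ (om (2 ^ (m + 2)) n : ℝ)) ∪
      (Icc 1 N).filter (fun n => (om (2 ^ (m + 2)) n : ℝ) ≤ L - d) := by
    intro n hn
    rw [mem_filter] at hn
    rw [mem_union, mem_filter, mem_filter]
    rcases lt_abs.1 hn.2 with h | h
    · exact Or.inl ⟨hn.1, by linarith⟩
    · exact Or.inr ⟨hn.1, by linarith⟩
  have hcard : (((Icc 1 N).filter (fun n => d < |(om (2 ^ (m + 2)) n : ℝ) - L|)).card : ℝ) ≤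
      N * Real.exp (1 + -(1 + η) * Real.log m) + C1 * N * Real.exp (2 + -(1 + η) * Real.log m) := by
    have h6 := (card_le_card hsub).trans (card_union_le _ _)
    have h7 : (((Icc 1 N).filter (fun n => d < |(om (2 ^ (m + 2)) n : ℝ) - L|)).card : ℝ) ≤
        (((Icc 1 N).filter (fun n => L + d ≤ (om (2 ^ (m + 2)) n : ℝ))).card : ℝ) +
        (((Icc 1 N).filter (fun n => (om (2 ^ (m + 2)) n : ℝ) ≤ L - d)).card : ℝ) := by
      exact_mod_cast h6
    refine h7.trans (add_le_add (hup.trans ?_) (hlo.trans ?_))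
    · exact mul_le_mul_of_nonneg_left (Real.exp_le_exp.2 hE1) (by positivity)
    · exact mul_le_mul_of_nonneg_left (Real.exp_le_exp.2 hE2) (by positivity)
  refine hcard.trans (le_of_eq ?_)
  have hrp : (m : ℝ) ^ (-(1 + η)) = Real.exp (-(1 + η) * Real.log m) := by
    rw [Real.rpow_def_of_pos hm0]
    ring_nf
  rw [hrp, Real.exp_add, Real.exp_add]
  ring

end Pool.Agent.Run7.h330.FN
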