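import Mathlib
import Pool.Agent.Run7.h330.FN.Tail

set_option autoImplicit false

/-!
# Integers without the typical shape are sparse
-/

namespace Pool.Agent.Run7.h330.FN

open Finset Filter Topology

/-- The product, with multiplicity, of the prime factors of `n` that are larger than `y`. -/
def rough (y n : ℕ) : ℕ := (n.primeFactorsList.filter (fun r => y < r)).prod

lemma prime_dvd_rough {y n p : ℕ} (hp : p.Prime) : p ∣ rough y n ↔ n ≠ 0 ∧ p ∣ n ∧ y < p := by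
  unfold rough
  rw [Prime.dvd_prod_iff hp.prime]
  constructor
  · rintro ⟨r, hr, hd⟩
    rw [List.mem_filter] at hr
    have h1 := Nat.prime_of_mem_primeFactorsList hr.1
    have h2 := (Nat.prime_dvd_prime_iff_eq hp h1).1 hd
    subst h2
    have h3 := (Nat.mem_primeFactorsList'.1 hr.1)
    exact ⟨h3.2.2, h3.2.1, of_decide_eq_true hr.2⟩
  · rintro ⟨h0, h1, h2⟩
    exact ⟨p, List.mem_filter.2 ⟨Nat.mem_primeFactorsList'.2 ⟨hp, h1, h0⟩, decide_eq_true h2⟩, dvd_rfl⟩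

lemma rough_ne_zero (y n : ℕ) : rough y n ≠ 0 := by
  unfold rough
  rw [Ne, List.prod_eq_zero_iff]
  intro h
  have := (List.mem_filter.1 h).1
  exact (Nat.prime_of_mem_primeFactorsList this).ne_zero rfl

lemma rough_dvd {y n : ℕ} (hn : n ≠ 0) : rough y n ∣ n := by
  conv_rhs => rw [← Nat.prod_primeFactorsList hn]
  exact (List.filter_sublist).prod_dvd_prod

lemma rough_primeFactors (y n : ℕ) :
    (rough y n).primeFactors = n.primeFactors.filter (fun p => y < p) := by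
  ext p
  rw [mem_filter, Nat.mem_primeFactors, Nat.mem_primeFactors]
  constructor
  · rintro ⟨h1, h2, h3⟩
    have := (prime_dvd_rough h1).1 h2
    exact ⟨⟨h1, this.2.1, this.1⟩, this.2.2⟩
  · rintro ⟨⟨h1, h2, h3⟩, h4⟩
    exact ⟨h1, (prime_dvd_rough h1).2 ⟨h3, h2, h4⟩, rough_ne_zero y n⟩

lemma rough_card (y n : ℕ) : (rough y n).primeFactors.card = om y n := by
  rw [rough_primeFactors]; rfl

lemma exists_of_not_squarefree {y n : ℕ} (h : ¬ Squarefree (rough y n)) (hn : n ≠ 0) :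
    ∃ p : ℕ, y < p ∧ p ^ 2 ∣ n := by
  rw [Nat.squarefree_iff_prime_squarefree] at h
  push Not at h
  obtain ⟨p, hp, hd⟩ := h
  have h1 : p ∣ rough y n := (dvd_mul_right p p).trans hd
  refine ⟨p, ((prime_dvd_rough hp).1 h1).2.2, ?_⟩
  rw [sq]
  exact hd.trans (rough_dvd hn)

lemma sum_inv_sq_Ioc (y N : ℕ) (hy : 1 ≤ y) :
    ∑ p ∈ Ioc y N, 1 / (p : ℝ) ^ 2 ≤ 1 / (y : ℝ) := by
  rcases Nat.lt_or_ge N y with h | h
  · rw [Ioc_eq_empty (by omega)]; simp
  have h3 : ∀ M : ℕ, y ≤ M → ∑ p ∈ Ioc y M, 1 / (p : ℝ) ^ 2 ≤ 1 / (y : ℝ) - 1 / (M : ℝ) := by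
    intro M hM
    induction M, hM using Nat.le_induction with
    | base => simp
    | succ M hM ih =>
      rw [← insert_Ioc_right_eq_Ioc_add_one (by omega), sum_insert (by simp)]
      have hM0 : (0 : ℝ) < M := by exact_mod_cast (by omega : 0 < M)
      have : 1 / (((M + 1 : ℕ) : ℝ)) ^ 2 ≤ 1 / (M : ℝ) - 1 / ((M + 1 : ℕ) : ℝ) := by
        push_cast
        rw [div_sub_div _ _ hM0.ne' (by positivity), div_le_div_iff₀ (by positivity) (by positivity)]
        nlinarith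
      linarith
  have := h3 N h
  have h4 : (0 : ℝ) ≤ 1 / N := by positivity
  linarith

open Classical in
lemma card_sq (y N : ℕ) (hy : 1 ≤ y) :
    (((Icc 1 N).filter (fun n => ∃ p : ℕ, y < p ∧ p ^ 2 ∣ n)).card : ℝ) ≤ N / y := by
  have h1 : (Icc 1 N).filter (fun n => ∃ p : ℕ, y < p ∧ p ^ 2 ∣ n) ⊆
      (Ioc y N).biUnion fun p => (Icc 1 N).filter (fun n => p ^ 2 ∣ n) := by
    intro n hn
    rw [mem_filter, mem_Icc] at hn
    obtain ⟨⟨hn1, hn2⟩, p, hp, hd⟩ := hn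
    rw [mem_biUnion]
    refine ⟨p, ?_, ?_⟩
    · rw [mem_Ioc]
      refine ⟨hp, ?_⟩
      have := Nat.le_of_dvd hn1 hd
      nlinarith
    · rw [mem_filter, mem_Icc]
      exact ⟨⟨hn1, hn2⟩, hd⟩
  have h2 := (card_le_card h1).trans card_biUnion_le
  have h3 : (((Icc 1 N).filter (fun n => ∃ p : ℕ, y < p ∧ p ^ 2 ∣ n)).card : ℝ) ≤
      ∑ p ∈ Ioc y N, (((Icc 1 N).filter (fun n => p ^ 2 ∣ n)).card : ℝ) := by
    exact_mod_cast h2
  refine h3.trans ?_
  calc ∑ p ∈ Ioc y N, (((Icc 1 N).filter (fun n => p ^ 2 ∣ n)).card : ℝ)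
      ≤ ∑ p ∈ Ioc y N, N * (1 / (p : ℝ) ^ 2) := by
        refine sum_le_sum fun p hp => ?_
        have hp' := (mem_Ioc.1 hp).1
        have := card_dvd_le (p ^ 2) N (pow_pos (by omega) 2)
        push_cast at this
        calc _ ≤ (N : ℝ) / (p : ℝ) ^ 2 := this
          _ = _ := by ring
    _ = N * ∑ p ∈ Ioc y N, 1 / (p : ℝ) ^ 2 := by rw [mul_sum]
    _ ≤ N * (1 / y) := mul_le_mul_of_nonneg_left (sum_inv_sq_Ioc y N hy) (by positivity)
    _ = N / y := by ring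

open Classical in
/-- `B m` is a sparse set of integers near the height `exp (2 ^ m)`, for all large `m`. -/
def Sparse (B : ℕ → ℕ → Prop) : Prop :=
  ∀ K : ℝ, ∃ η C : ℝ, 0 < η ∧ 0 < C ∧ ∀ᶠ m : ℕ in atTop, ∀ N : ℕ, 2 ≤ N →
    |Real.log (Real.log N) - m * Real.log 2| ≤ K →
    (((Icc 1 N).filter (fun n => B m n)).card : ℝ) ≤ C * N * (m : ℝ) ^ (-(1 + η))

/-- the typical shape at level `m` -/
def Good (κ : ℝ) (m n : ℕ) : Prop :=
  Squarefree (rough (2 ^ (m + 2)) n) ∧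
    |((rough (2 ^ (m + 2)) n).primeFactors.card : ℝ) - m * Real.log 2| ≤
      κ * Real.sqrt (m * Real.log m)

theorem sparse_bad {κ : ℝ} (hκ : Real.sqrt (2 * Real.log 2) < κ) :
    Sparse (fun m n => ¬ Good κ m n) := by
  classical
  intro K
  obtain ⟨η, C, hη, hC, h⟩ := tails hκ K
  refine ⟨η, C + 1, hη, by positivity, ?_⟩
  have h2 : ∀ᶠ m : ℕ in atTop, 1 / (2 : ℝ) ^ (m + 2) ≤ (m : ℝ) ^ (-(1 + η)) := by
    have h3 := (tendsto_rpow_mul_exp_neg_mul_atTop_nhds_zero (1 + η) (Real.log 2)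
      (Real.log_pos (by norm_num))).comp (tendsto_natCast_atTop_atTop (R := ℝ))
    filter_upwards [h3.eventually (gt_mem_nhds (by norm_num : (0 : ℝ) < 1)), eventually_ge_atTop 1]
      with m hm hm1
    have hm0 : (0 : ℝ) < m := by exact_mod_cast hm1
    simp only [Function.comp] at hm
    have e : Real.exp (-Real.log 2 * m) = 1 / (2 : ℝ) ^ m := by
      rw [neg_mul, Real.exp_neg, mul_comm, Real.exp_nat_mul, Real.exp_log (by norm_num), one_div]
    rw [e] at hm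
    rw [Real.rpow_neg hm0.le, ← one_div, div_le_div_iff₀ (by positivity) (by positivity)]
    rw [mul_one_div, div_lt_one (by positivity)] at hm
    rw [one_mul, one_mul]
    refine hm.le.trans (pow_le_pow_right₀ (by norm_num) (by omega))
  filter_upwards [h, h2] with m hm hm2 N hN hNm
  have h4 : (Icc 1 N).filter (fun n => ¬ Good κ m n) ⊆
      (Icc 1 N).filter (fun n => κ * Real.sqrt (m * Real.log m) <
        |(om (2 ^ (m + 2)) n : ℝ) - m * Real.log 2|) ∪
      (Icc 1 N).filter (fun n => ∃ p : ℕ, 2 ^ (m + 2) < p ∧ p ^ 2 ∣ n) := by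
    intro n hn
    rw [mem_filter, mem_Icc] at hn
    rw [mem_union, mem_filter, mem_filter, mem_Icc]
    by_cases hs : Squarefree (rough (2 ^ (m + 2)) n)
    · left
      refine ⟨hn.1, ?_⟩
      by_contra hc
      exact hn.2 ⟨hs, by rw [rough_card]; exact not_lt.1 hc⟩
    · right
      exact ⟨hn.1, exists_of_not_squarefree hs (by omega)⟩
  have h5 : (((Icc 1 N).filter (fun n => ¬ Good κ m n)).card : ℝ) ≤
      (((Icc 1 N).filter (fun n => κ * Real.sqrt (m * Real.log m) <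
        |(om (2 ^ (m + 2)) n : ℝ) - m * Real.log 2|)).card : ℝ) +
      (((Icc 1 N).filter (fun n => ∃ p : ℕ, 2 ^ (m + 2) < p ∧ p ^ 2 ∣ n)).card : ℝ) := by
    exact_mod_cast (card_le_card h4).trans (card_union_le _ _)
  have h6 := hm N hN hNm
  have h7 := card_sq (2 ^ (m + 2)) N Nat.one_le_two_pow
  push_cast at h7
  have h8 : (N : ℝ) / 2 ^ (m + 2) ≤ N * (m : ℝ) ^ (-(1 + η)) := by
    calc (N : ℝ) / 2 ^ (m + 2) = N * (1 / 2 ^ (m + 2)) := by ring
      _ ≤ _ := mul_le_mul_of_nonneg_left hm2 (by positivity)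
  have h9 : (((Icc 1 N).filter (fun n => ¬ Good κ m n)).card : ℝ) ≤
      (C + 1) * N * (m : ℝ) ^ (-(1 + η)) := by
    refine h5.trans ?_
    have h10 : (C + 1) * N * (m : ℝ) ^ (-(1 + η)) =
        C * N * (m : ℝ) ^ (-(1 + η)) + N * (m : ℝ) ^ (-(1 + η)) := by ring
    rw [h10]
    refine add_le_add ?_ (h7.trans h8)
    convert h6
  convert h9

end Pool.Agent.Run7.h330.FN
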