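import Mathlib
import Pool.Agent.Run7.h330.FN.Sparse

set_option autoImplicit false

/-!
# Almost every amplitude avoids sparse sets
-/

namespace Pool.Agent.Run7.h330.FN

open Finset Filter Topology MeasureTheory

/-- the Fermat number with base `α` and amplitude `β` -/
noncomputable def F (α β : ℝ) (m : ℕ) : ℕ := ⌊β * α ^ (2 ^ m)⌋₊ + 1

lemma loglog {m N : ℕ} {c1 c2 : ℝ} (h1 : 0 < c1) (h2 : 0 < c2) (hN1 : c1 * 2 ^ m ≤ Real.log N)
    (hN2 : Real.log N ≤ c2 * 2 ^ m) :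
    |Real.log (Real.log N) - m * Real.log 2| ≤ |Real.log c1| + |Real.log c2| := by
  have e : ∀ c : ℝ, 0 < c → Real.log (c * 2 ^ m) = Real.log c + m * Real.log 2 := fun c hc => by
    rw [Real.log_mul hc.ne' (by positivity), Real.log_pow]
  have h3 := Real.log_le_log (by positivity) hN1
  have h4 := Real.log_le_log (lt_of_lt_of_le (by positivity) hN1) hN2
  rw [e c1 h1] at h3
  rw [e c2 h2] at h4
  have h5 := neg_abs_le (Real.log c1)
  have h6 := le_abs_self (Real.log c2)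
  have h7 := abs_nonneg (Real.log c1)
  have h8 := abs_nonneg (Real.log c2)
  rw [abs_le]
  constructor <;> linarith

lemma borel_cantelli {s : ℕ → Set ℝ} {η C : ℝ} (hη : 0 < η)
    (h : ∀ᶠ m : ℕ in atTop, volume (s m) ≤ ENNReal.ofReal (C * (m : ℝ) ^ (-(1 + η)))) :
    ∀ᵐ x : ℝ, ∀ᶠ m in atTop, x ∉ s m := by
  obtain ⟨m0, hm0⟩ := eventually_atTop.1 h
  have hsum : Summable (fun i : ℕ => C * ((i + m0 : ℕ) : ℝ) ^ (-(1 + η))) := by
    have h1 : Summable (fun n : ℕ => (n : ℝ) ^ (-(1 + η))) :=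
      Real.summable_nat_rpow.2 (by linarith)
    exact ((summable_nat_add_iff m0).2 h1).mul_left C
  have h2 : ∑' i, volume (s (i + m0)) ≠ ⊤ := by
    refine ne_top_of_le_ne_top hsum.tsum_ofReal_ne_top ?_
    exact ENNReal.tsum_le_tsum fun i => hm0 (i + m0) (Nat.le_add_left m0 i)
  filter_upwards [ae_eventually_notMem h2] with x hx
  obtain ⟨i0, hi0⟩ := eventually_atTop.1 hx
  rw [eventually_atTop]
  refine ⟨i0 + m0, fun m hm => ?_⟩
  have := hi0 (m - m0) (Nat.le_sub_of_add_le hm)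
  rwa [Nat.sub_add_cancel ((Nat.le_add_left m0 i0).trans hm)] at this

lemma floor_iff {x : ℝ} (hx : 0 ≤ x) {k : ℕ} : ⌊x⌋₊ + 1 = k ↔ (k : ℝ) - 1 ≤ x ∧ x < k ∧ 1 ≤ k := by
  constructor
  · intro h
    subst h
    push_cast
    refine ⟨?_, Nat.lt_floor_add_one x, trivial⟩
    have := Nat.floor_le hx
    linarith
  · rintro ⟨h1, h2, h3⟩
    have : ⌊x⌋₊ = k - 1 := by
      rw [Nat.floor_eq_iff hx]
      push_cast [Nat.cast_sub h3]
      constructor <;> linarith
    omega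

/-- **Almost every amplitude.** -/
theorem amp {B : ℕ → ℕ → Prop} (hB : Sparse B) {α : ℝ} (hα : 1 < α) :
    ∀ᵐ β : ℝ, 0 < β → ∀ᶠ m : ℕ in atTop, ¬ B m (F α β m) := by
  classical
  have hla : 0 < Real.log α := Real.log_pos hα
  have main : ∀ b : ℕ, 1 ≤ b → ∀ᵐ β : ℝ, ∀ᶠ m : ℕ in atTop,
      β ∉ {β : ℝ | (0 < β ∧ β ≤ b) ∧ B m (F α β m)} := by
    intro b hb
    have hb1 : (1 : ℝ) ≤ b := by exact_mod_cast hb
    have hl2b : 0 ≤ Real.log (2 * b) := Real.log_nonneg (by linarith)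
    obtain ⟨η, C, hη, hC, h⟩ := hB (|Real.log (Real.log α)| + |Real.log (Real.log α + Real.log (2 * b))|)
    refine borel_cantelli (C := C * (2 * b)) hη ?_
    filter_upwards [h] with m hm
    set A : ℝ := α ^ (2 ^ m) with hA
    have hA1 : 1 ≤ A := one_le_pow₀ hα.le
    have hA0 : 0 < A := by linarith
    set N : ℕ := ⌊(b : ℝ) * A⌋₊ + 1 with hN
    have hbA : 1 ≤ (b : ℝ) * A := by nlinarith
    have hNge : (b : ℝ) * A ≤ N := by
      rw [hN]; push_cast; exact (Nat.lt_floor_add_one _).le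
    have hNle : (N : ℝ) ≤ 2 * b * A := by
      rw [hN]; push_cast
      have := Nat.floor_le (by linarith : (0 : ℝ) ≤ b * A)
      linarith
    have hN2 : 2 ≤ N := by
      rw [hN]
      have : 1 ≤ ⌊(b : ℝ) * A⌋₊ := Nat.le_floor (by simpa using hbA)
      omega
    have hlA : Real.log A = 2 ^ m * Real.log α := by
      rw [hA, Real.log_pow]; push_cast; ring
    have h2m : (1 : ℝ) ≤ 2 ^ m := one_le_pow₀ (by norm_num)
    have hc := card_filter (B m) (Icc 1 N)
    have hcard := hm N hN2 (loglog hla (by linarith) (by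
        have : Real.log A ≤ Real.log N := Real.log_le_log hA0 (by nlinarith)
        rw [hlA] at this
        linarith) (by
        have : Real.log N ≤ Real.log (2 * b * A) := Real.log_le_log (by positivity) hNle
        rw [Real.log_mul (by positivity) hA0.ne', hlA] at this
        nlinarith))
    have hsub : {β : ℝ | (0 < β ∧ β ≤ b) ∧ B m (F α β m)} ⊆
        ⋃ k ∈ (Icc 1 N).filter (fun n => B m n), Set.Ico (((k : ℝ) - 1) / A) (k / A) := by
      rintro β ⟨⟨h0, h1⟩, h2⟩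
      rw [Set.mem_iUnion₂]
      have hβ : 0 ≤ β * A := by positivity
      obtain ⟨f1, f2, f3⟩ := (floor_iff hβ (k := F α β m)).1 rfl
      refine ⟨F α β m, ?_, ?_⟩
      · rw [mem_filter, mem_Icc]
        refine ⟨⟨f3, ?_⟩, h2⟩
        have : ⌊β * A⌋₊ ≤ ⌊(b : ℝ) * A⌋₊ := Nat.floor_le_floor (by nlinarith)
        show ⌊β * A⌋₊ + 1 ≤ N
        omega
      · rw [Set.mem_Ico, div_le_iff₀ hA0, lt_div_iff₀ hA0]
        exact ⟨f1, f2⟩
    have hvol : volume {β : ℝ | (0 < β ∧ β ≤ b) ∧ B m (F α β m)} ≤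
        ∑ k ∈ (Icc 1 N).filter (fun n => B m n), ENNReal.ofReal (1 / A) := by
      refine (measure_mono hsub).trans ((measure_biUnion_finset_le _ _).trans ?_)
      refine sum_le_sum fun k _ => ?_
      rw [Real.volume_Ico]
      refine le_of_eq (congrArg _ ?_)
      ring
    refine hvol.trans ?_
    rw [sum_const, nsmul_eq_mul, ← ENNReal.ofReal_natCast, ← ENNReal.ofReal_mul (by positivity)]
    refine ENNReal.ofReal_le_ofReal ?_
    have h8 : (((Icc 1 N).filter (fun n => B m n)).card : ℝ) ≤ C * N * (m : ℝ) ^ (-(1 + η)) := by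
      convert hcard
    have h9 : 0 ≤ (m : ℝ) ^ (-(1 + η)) := by positivity
    calc (((Icc 1 N).filter (fun n => B m n)).card : ℝ) * (1 / A)
        ≤ (C * N * (m : ℝ) ^ (-(1 + η))) * (1 / A) :=
          mul_le_mul_of_nonneg_right h8 (by positivity)
      _ ≤ (C * (2 * b * A) * (m : ℝ) ^ (-(1 + η))) * (1 / A) := by gcongr
      _ = C * (2 * b) * (m : ℝ) ^ (-(1 + η)) := by field_simp
  have h1 : ∀ᵐ β : ℝ, ∀ b : ℕ, 1 ≤ b → ∀ᶠ m : ℕ in atTop,
      β ∉ {β : ℝ | (0 < β ∧ β ≤ b) ∧ B m (F α β m)} := by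
    rw [ae_all_iff]
    intro b
    by_cases hb : 1 ≤ b
    · filter_upwards [main b hb] with β hβ _
      exact hβ
    · exact Eventually.of_forall fun β h => absurd h hb
  filter_upwards [h1] with β hβ h0
  obtain ⟨b, hb⟩ := exists_nat_ge (max β 1)
  have hb1 : 1 ≤ b := by
    have : (1 : ℝ) ≤ b := (le_max_right _ _).trans hb
    exact_mod_cast this
  filter_upwards [hβ b hb1] with m hm hBm
  exact hm ⟨⟨h0, (le_max_left _ _).trans hb⟩, hBm⟩

end Pool.Agent.Run7.h330.FN
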