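import Mathlib
import Pool.Agent.Run7.h330.FN.Amp

set_option autoImplicit false

/-!
# Almost every base avoids sparse sets
-/

namespace Pool.Agent.Run7.h330.FN

open Finset Filter Topology MeasureTheory

/-- partial summation -/
lemma partial_sum (P : ℕ → Prop) [DecidablePred P] {X0 : ℕ} (h0 : 1 ≤ X0) {ε : ℝ}
    (X1 : ℕ) (h01 : X0 ≤ X1)
    (h : ∀ N, X0 ≤ N → N ≤ X1 → (((Icc 1 N).filter P).card : ℝ) ≤ ε * N) :
    ∑ k ∈ (Ioc X0 X1).filter P, 1 / (k : ℝ) ≤ ε * (1 + Real.log (X1 / X0)) := by
  have hε : 0 ≤ ε := by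
    have h1 := h X0 le_rfl h01
    have h2 : (0 : ℝ) ≤ (((Icc 1 X0).filter P).card : ℝ) := by positivity
    have h3 : (0 : ℝ) < X0 := by exact_mod_cast h0
    by_contra hc
    push Not at hc
    nlinarith
  have key : ∀ X : ℕ, X0 ≤ X → X ≤ X1 → ∑ k ∈ (Ioc X0 X).filter P, 1 / (k : ℝ) ≤
      (((Icc 1 X).filter P).card : ℝ) / X + ε * Real.log (X / X0) := by
    intro X hX
    induction X, hX using Nat.le_induction with
    | base =>
      intro _
      have h3 : (0 : ℝ) < X0 := by exact_mod_cast h0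
      rw [Ioc_self, filter_empty, sum_empty, div_self h3.ne', Real.log_one, mul_zero, add_zero]
      positivity
    | succ X hX ih =>
      intro hX1
      have ih' := ih (by omega)
      have hc := h X hX (by omega)
      have hX0 : (0 : ℝ) < X := by exact_mod_cast (by omega : 0 < X)
      have h3 : (0 : ℝ) < X0 := by exact_mod_cast h0
      have e1 : ∑ k ∈ (Ioc X0 (X + 1)).filter P, 1 / (k : ℝ) =
          (if P (X + 1) then 1 / ((X + 1 : ℕ) : ℝ) else 0) +
            ∑ k ∈ (Ioc X0 X).filter P, 1 / (k : ℝ) := by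
        rw [← insert_Ioc_right_eq_Ioc_add_one (by omega), filter_insert]
        split_ifs with hP
        · rw [sum_insert (by simp)]
        · rw [zero_add]
      have e2 : (((Icc 1 (X + 1)).filter P).card : ℝ) =
          (if P (X + 1) then 1 else 0) + (((Icc 1 X).filter P).card : ℝ) := by
        rw [← insert_Icc_right_eq_Icc_add_one (by omega), filter_insert]
        split_ifs with hP
        · rw [card_insert_of_notMem (by simp)]
          push_cast
          ring
        · rw [zero_add]
      have e3 : Real.log (((X + 1 : ℕ) : ℝ) / X0) =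
          Real.log (X / X0) + Real.log (1 + 1 / X) := by
        rw [← Real.log_mul (by positivity) (by positivity)]
        congr 1
        push_cast
        field_simp
      have e4 : 1 / ((X : ℝ) + 1) ≤ Real.log (1 + 1 / X) := by
        have h5 := Real.one_sub_inv_le_log_of_pos (x := 1 + 1 / (X : ℝ)) (by positivity)
        refine le_trans (le_of_eq ?_) h5
        field_simp
        ring
      have e5 : (((Icc 1 X).filter P).card : ℝ) / X ≤
          (((Icc 1 X).filter P).card : ℝ) / (X + 1) + ε * (1 / (X + 1)) := by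
        rw [mul_one_div, ← add_div, div_le_div_iff₀ hX0 (by positivity)]
        nlinarith
      rw [e1, e2, e3]
      have e6 := mul_le_mul_of_nonneg_left e4 hε
      have e7 : ((if P (X + 1) then (1 : ℝ) else 0) + (((Icc 1 X).filter P).card : ℝ)) /
          ((X + 1 : ℕ) : ℝ) = (if P (X + 1) then 1 / ((X + 1 : ℕ) : ℝ) else 0) +
            (((Icc 1 X).filter P).card : ℝ) / (X + 1) := by
        push_cast
        split_ifs
        · ring
        · ring
      rw [e7]
      linarith
  have h1 := key X1 h01 le_rfl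
  have hX1 : (0 : ℝ) < X1 := by exact_mod_cast (by omega : 0 < X1)
  have h2 : (((Icc 1 X1).filter P).card : ℝ) / X1 ≤ ε := by
    rw [div_le_iff₀ hX1]
    exact h X1 h01 le_rfl
  linarith

/-- the set of the bases with a given value is short -/
lemma short {a b β : ℝ} (ha : 1 < a) (hβ : 0 < β) {n k : ℕ} (hn : 1 ≤ n) (hk : 2 ≤ k) :
    volume {α : ℝ | (a < α ∧ α < b) ∧ ⌊β * α ^ n⌋₊ + 1 = k} ≤
      ENNReal.ofReal (b / (n * ((k : ℝ) - 1))) := by
  refine (Real.volume_le_diam _).trans ?_
  refine Metric.ediam_le fun x hx y hy => ?_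
  have hk1 : (0 : ℝ) < (k : ℝ) - 1 := by
    have : (2 : ℝ) ≤ k := by exact_mod_cast hk
    linarith
  have hn0 : (0 : ℝ) < n := by exact_mod_cast hn
  have key : ∀ x y : ℝ, x ∈ {α : ℝ | (a < α ∧ α < b) ∧ ⌊β * α ^ n⌋₊ + 1 = k} →
      y ∈ {α : ℝ | (a < α ∧ α < b) ∧ ⌊β * α ^ n⌋₊ + 1 = k} → x ≤ y →
      y - x ≤ b / (n * ((k : ℝ) - 1)) := by
    rintro x y ⟨⟨hx1, hx2⟩, hx3⟩ ⟨⟨hy1, hy2⟩, hy3⟩ hxy
    have hx0 : 0 < x := by linarith
    have fx := (floor_iff (by positivity : 0 ≤ β * x ^ n)).1 hx3
    have fy := (floor_iff (by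
      have : 0 < y := by linarith
      positivity : 0 ≤ β * y ^ n)).1 hy3
    have h1 : x ^ n + n * x ^ n * ((y - x) / x) ≤ y ^ n := by
      have h2 := one_add_mul_le_pow (a := (y - x) / x) (by
        have : 0 ≤ (y - x) / x := div_nonneg (by linarith) hx0.le
        linarith) n
      have h3 : (1 + (y - x) / x) ^ n = y ^ n / x ^ n := by
        rw [← div_pow]
        congr 1
        field_simp
        ring
      rw [h3, le_div_iff₀ (by positivity)] at h2
      nlinarith
    have h4 : n * ((k : ℝ) - 1) * ((y - x) / x) ≤ 1 := by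
      have h5 : 0 ≤ (y - x) / x := div_nonneg (by linarith) hx0.le
      have h6 : β * (n * x ^ n * ((y - x) / x)) ≤ β * y ^ n - β * x ^ n := by nlinarith
      have h7 : n * ((k : ℝ) - 1) * ((y - x) / x) ≤ n * (β * x ^ n) * ((y - x) / x) := by
        have := fx.1
        gcongr
      have h8 : n * (β * x ^ n) * ((y - x) / x) = β * (n * x ^ n * ((y - x) / x)) := by ring
      linarith [fy.2.1, fx.1]
    rw [le_div_iff₀ (by positivity)]
    have h9 : (y - x) * (n * ((k : ℝ) - 1)) = n * ((k : ℝ) - 1) * ((y - x) / x) * x := by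
      field_simp
    rw [h9]
    nlinarith
  rw [edist_dist, Real.dist_eq]
  refine ENNReal.ofReal_le_ofReal ?_
  rcases le_total x y with h | h
  · rw [abs_sub_comm, abs_of_nonneg (by linarith)]
    exact key x y hx hy h
  · rw [abs_of_nonneg (by linarith)]
    exact key y x hy hx h

/-- **Almost every base.** -/
theorem base {B : ℕ → ℕ → Prop} (hB : Sparse B) {β : ℝ} (hβ : 0 < β) :
    ∀ᵐ α : ℝ, 1 < α → ∀ᶠ m : ℕ in atTop, ¬ B m (F α β m) := by
  classical
  have main : ∀ a b : ℝ, 1 < a → a < b → ∀ᵐ α : ℝ, ∀ᶠ m : ℕ in atTop,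
      α ∉ {α : ℝ | (a < α ∧ α < b) ∧ B m (F α β m)} := by
    intro a b ha hab
    have hla : 0 < Real.log a := Real.log_pos ha
    have hlb : 0 < Real.log b := Real.log_pos (by linarith)
    have hlab : 0 < Real.log (b / a) := Real.log_pos (by rw [one_lt_div (by linarith)]; exact hab)
    set c2 : ℝ := Real.log b + |Real.log (2 * β)| with hc2
    have hc20 : 0 < c2 := by
      have := abs_nonneg (Real.log (2 * β))
      rw [hc2]; linarith
    obtain ⟨η, C, hη, hC, h⟩ := hB (|Real.log (Real.log a / 2)| + |Real.log c2|)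
    refine borel_cantelli (C := 2 * b * C * (3 + Real.log 4 + Real.log (b / a))) hη ?_
    -- large powers
    have hgrow : Tendsto (fun m : ℕ => a ^ (2 ^ m)) atTop atTop :=
      (tendsto_pow_atTop_atTop_of_one_lt ha).comp (tendsto_pow_atTop_atTop_of_one_lt (by norm_num))
    have hgrow2 : Tendsto (fun m : ℕ => (2 : ℝ) ^ m) atTop atTop :=
      tendsto_pow_atTop_atTop_of_one_lt (by norm_num)
    filter_upwards [h, hgrow.eventually_ge_atTop (2 / β),
      hgrow2.eventually_ge_atTop (2 * |Real.log (2 / β)| / Real.log a)] with m hm hg1 hg2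
    set n : ℕ := 2 ^ m with hn
    have hn1 : 1 ≤ n := Nat.one_le_two_pow
    have hnr : (1 : ℝ) ≤ n := by exact_mod_cast hn1
    have hnm : (n : ℝ) = 2 ^ m := by rw [hn]; push_cast; ring
    have ha0 : 0 < a := by linarith
    have hb0 : 0 < b := by linarith
    have hβa : 2 ≤ β * a ^ n := by
      rw [div_le_iff₀ hβ] at hg1
      linarith
    have hab' : a ^ n ≤ b ^ n := pow_le_pow_left₀ ha0.le hab.le n
    have hβb : 2 ≤ β * b ^ n := hβa.trans (mul_le_mul_of_nonneg_left hab' hβ.le)
    set X0 : ℕ := ⌊β * a ^ n⌋₊ with hX0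
    set X1 : ℕ := ⌊β * b ^ n⌋₊ + 1 with hX1
    have hX02 : 2 ≤ X0 := Nat.le_floor (by exact_mod_cast hβa)
    have hX0le : (X0 : ℝ) ≤ β * a ^ n := Nat.floor_le (by positivity)
    have hX0ge : β * a ^ n / 2 ≤ X0 := by
      have := Nat.lt_floor_add_one (β * a ^ n)
      rw [← hX0] at this
      linarith
    have hX1le : (X1 : ℝ) ≤ 2 * β * b ^ n := by
      rw [hX1]; push_cast
      have := Nat.floor_le (by positivity : 0 ≤ β * b ^ n)
      linarith
    have h01 : X0 ≤ X1 := by
      have : X0 ≤ ⌊β * b ^ n⌋₊ := Nat.floor_le_floor (mul_le_mul_of_nonneg_left hab' hβ.le)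
      omega
    have hX0p : (0 : ℝ) < X0 := by exact_mod_cast (by omega : 0 < X0)
    have hX1p : (0 : ℝ) < X1 := by exact_mod_cast (by omega : 0 < X1)
    set ε : ℝ := C * (m : ℝ) ^ (-(1 + η)) with hε
    have hε0 : 0 ≤ ε := by positivity
    have hcount : ∀ N, X0 ≤ N → N ≤ X1 → (((Icc 1 N).filter (B m)).card : ℝ) ≤ ε * N := by
      intro N hN0 hN1
      have hN0' : (X0 : ℝ) ≤ N := by exact_mod_cast hN0
      have hN1' : (N : ℝ) ≤ X1 := by exact_mod_cast hN1
      have h5 := hm N (by omega) (loglog (c1 := Real.log a / 2) (c2 := c2) (by positivity) hc20 (by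
          have h6 : Real.log (β * a ^ n / 2) ≤ Real.log N :=
            Real.log_le_log (by positivity) (by linarith)
          have h7 : Real.log (β * a ^ n / 2) = n * Real.log a - Real.log (2 / β) := by
            rw [Real.log_div (by positivity) (by norm_num), Real.log_mul hβ.ne' (by positivity),
              Real.log_pow, Real.log_div (by norm_num) hβ.ne']
            ring
          rw [div_le_iff₀ hla] at hg2
          have h8 := le_abs_self (Real.log (2 / β))
          rw [h7, hnm] at h6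
          linarith) (by
          have h6 : Real.log N ≤ Real.log (2 * β * b ^ n) :=
            Real.log_le_log (by linarith) (by linarith)
          rw [Real.log_mul (by positivity) (by positivity), Real.log_pow, hnm] at h6
          have h8 := le_abs_self (Real.log (2 * β))
          have h9 := abs_nonneg (Real.log (2 * β))
          rw [hc2]
          rw [hnm] at hnr
          nlinarith))
      calc (((Icc 1 N).filter (B m)).card : ℝ) ≤ C * N * (m : ℝ) ^ (-(1 + η)) := by convert h5
        _ = ε * N := by rw [hε]; ring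
    have hps := partial_sum (B m) (by omega : 1 ≤ X0) X1 h01 hcount
    have hlog : Real.log ((X1 : ℝ) / X0) ≤ n * (Real.log 4 + Real.log (b / a)) := by
      have h6 : (X1 : ℝ) / X0 ≤ 4 * (b / a) ^ n := by
        rw [div_le_iff₀ hX0p, div_pow]
        have h7 : 4 * (b ^ n / a ^ n) * (β * a ^ n / 2) ≤ 4 * (b ^ n / a ^ n) * X0 :=
          mul_le_mul_of_nonneg_left hX0ge (by positivity)
        have h8 : 4 * (b ^ n / a ^ n) * (β * a ^ n / 2) = 2 * β * b ^ n := by
          have : a ^ n ≠ 0 := by positivity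
          field_simp
          ring
        linarith
      have h7 := Real.log_le_log (by positivity) h6
      rw [Real.log_mul (by norm_num) (by positivity), Real.log_pow] at h7
      have h8 : 0 ≤ Real.log 4 := Real.log_nonneg (by norm_num)
      nlinarith
    have hsub : {α : ℝ | (a < α ∧ α < b) ∧ B m (F α β m)} ⊆
        ⋃ k ∈ (Ioc X0 X1).filter (B m), {α : ℝ | (a < α ∧ α < b) ∧ ⌊β * α ^ n⌋₊ + 1 = k} := by
      rintro α ⟨⟨h1, h2⟩, h3⟩
      rw [Set.mem_iUnion₂]
      refine ⟨F α β m, ?_, ⟨⟨h1, h2⟩, rfl⟩⟩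
      rw [mem_filter, mem_Ioc]
      have h4 : ⌊β * a ^ n⌋₊ ≤ ⌊β * α ^ n⌋₊ :=
        Nat.floor_le_floor (mul_le_mul_of_nonneg_left (pow_le_pow_left₀ ha0.le h1.le n) hβ.le)
      have h5 : ⌊β * α ^ n⌋₊ ≤ ⌊β * b ^ n⌋₊ :=
        Nat.floor_le_floor (mul_le_mul_of_nonneg_left
          (pow_le_pow_left₀ (by linarith) h2.le n) hβ.le)
      have h6 : F α β m = ⌊β * α ^ n⌋₊ + 1 := rfl
      refine ⟨⟨by omega, by omega⟩, h3⟩
    have hvol : volume {α : ℝ | (a < α ∧ α < b) ∧ B m (F α β m)} ≤
        ∑ k ∈ (Ioc X0 X1).filter (B m), ENNReal.ofReal (2 * b / n * (1 / (k : ℝ))) := by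
      refine (measure_mono hsub).trans ((measure_biUnion_finset_le _ _).trans ?_)
      refine sum_le_sum fun k hk => ?_
      rw [mem_filter, mem_Ioc] at hk
      have hk3 : 3 ≤ k := by omega
      have hk3' : (3 : ℝ) ≤ k := by exact_mod_cast hk3
      refine (short ha hβ hn1 (by omega)).trans (ENNReal.ofReal_le_ofReal ?_)
      rw [div_mul_div_comm, mul_one, div_le_div_iff₀ (by
        have : (0 : ℝ) < (k : ℝ) - 1 := by linarith
        positivity) (by positivity)]
      have : b * (n * (k : ℝ)) ≤ b * (n * (2 * ((k : ℝ) - 1))) := by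
        gcongr
        linarith
      linarith
    refine hvol.trans ?_
    rw [← ENNReal.ofReal_sum_of_nonneg fun k _ => by positivity]
    refine ENNReal.ofReal_le_ofReal ?_
    rw [← mul_sum]
    calc 2 * b / n * ∑ k ∈ (Ioc X0 X1).filter (B m), 1 / (k : ℝ)
        ≤ 2 * b / n * (ε * (1 + n * (Real.log 4 + Real.log (b / a)))) := by
          refine mul_le_mul_of_nonneg_left (hps.trans ?_) (by positivity)
          exact mul_le_mul_of_nonneg_left (by linarith) hε0
      _ ≤ 2 * b / n * (ε * (n * (3 + Real.log 4 + Real.log (b / a)))) := by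
          have : 1 + n * (Real.log 4 + Real.log (b / a)) ≤ n * (3 + Real.log 4 + Real.log (b / a)) := by
            nlinarith
          gcongr
      _ = 2 * b * C * (3 + Real.log 4 + Real.log (b / a)) * (m : ℝ) ^ (-(1 + η)) := by
          rw [hε]
          field_simp
  have h1 : ∀ᵐ α : ℝ, ∀ j : ℕ, ∀ᶠ m : ℕ in atTop,
      α ∉ {α : ℝ | (1 + 1 / ((j : ℝ) + 1) < α ∧ α < j + 3) ∧ B m (F α β m)} := by
    rw [ae_all_iff]
    intro j
    refine main _ _ ?_ ?_
    · have : (0 : ℝ) < 1 / ((j : ℝ) + 1) := by positivity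
      linarith
    · have : 1 / ((j : ℝ) + 1) ≤ 1 := by
        rw [div_le_one (by positivity)]
        have : (0 : ℝ) ≤ j := by positivity
        linarith
      have h2 : (0 : ℝ) ≤ j := by positivity
      linarith
  filter_upwards [h1] with α hα h0
  obtain ⟨j, hj⟩ := exists_nat_ge (max α (1 / (α - 1)))
  have hj1 : α ≤ j := (le_max_left _ _).trans hj
  have hj2 : 1 / (α - 1) ≤ j := (le_max_right _ _).trans hj
  filter_upwards [hα j] with m hm hBm
  refine hm ⟨⟨?_, by linarith⟩, hBm⟩
  have h3 : 0 < α - 1 := by linarith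
  rw [div_le_iff₀ h3] at hj2
  have h4 : 1 / ((j : ℝ) + 1) < α - 1 := by
    rw [div_lt_iff₀ (by positivity)]
    nlinarith
  linarith

end Pool.Agent.Run7.h330.FN
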