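import Mathlib
import Pool.Agent.Helper923.PNT
import Pool.Agent.Run7.h330.FN.Amp

set_option autoImplicit false

/-!
# Generic amplitudes and bases give infinitely many primes
-/

namespace Pool.Agent.Run7.h330.FN

open Finset Filter Topology

/-- prime number theorem in short intervals -/
theorem exists_prime_Ioc (δ : ℝ) (hδ : 0 < δ) : ∀ᶠ y : ℝ in atTop,
    ∃ p : ℕ, p.Prime ∧ y < p ∧ (p : ℝ) ≤ (1 + δ) * y := by
  have h1 := Pool.Agent.Helper923.PNT.theta_div_tendsto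
  have h2 : Tendsto (fun y : ℝ => Chebyshev.theta ((1 + δ) * y) / y) atTop (𝓝 (1 + δ)) := by
    have h3 : Tendsto (fun y : ℝ => (1 + δ) * y) atTop atTop :=
      tendsto_id.const_mul_atTop (by linarith)
    have h4 := (h1.comp h3).const_mul (1 + δ)
    rw [mul_one] at h4
    refine h4.congr' ?_
    filter_upwards [eventually_gt_atTop 0] with y hy
    simp only [Function.comp]
    have : 1 + δ ≠ 0 := by linarith
    field_simp
  have h5 := (h2.sub h1).eventually (lt_mem_nhds (show (0 : ℝ) < 1 + δ - 1 by linarith))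
  filter_upwards [h5, eventually_gt_atTop 0] with y hy hy0
  by_contra hcon
  push Not at hcon
  have h6 : Chebyshev.theta ((1 + δ) * y) = Chebyshev.theta y := by
    unfold Chebyshev.theta
    apply Finset.sum_congr _ (fun _ _ => rfl)
    ext p
    simp only [Finset.mem_filter, Finset.mem_Ioc]
    have h7 : y ≤ (1 + δ) * y := by nlinarith
    constructor
    · rintro ⟨⟨h8, h9⟩, h10⟩
      refine ⟨⟨h8, ?_⟩, h10⟩
      have h11 : (p : ℝ) ≤ (1 + δ) * y := (Nat.le_floor_iff (by positivity)).1 h9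
      apply Nat.le_floor
      by_contra h12
      push Not at h12
      exact absurd h11 (not_le.2 (hcon p h10 h12))
    · rintro ⟨⟨h8, h9⟩, h10⟩
      exact ⟨⟨h8, h9.trans (Nat.floor_le_floor h7)⟩, h10⟩
  rw [h6, sub_self] at hy
  exact lt_irrefl _ hy

/-- open sets meeting every interval to the right of `c` contain the generic point there -/
lemma generic {U : ℕ → Set ℝ} {c : ℝ} (hU : ∀ k, IsOpen (U k))
    (hd : ∀ k a b, c < a → a < b → ∃ x ∈ U k, a < x ∧ x < b) :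
    ∀ᶠ x in residual ℝ, c < x → ∀ k, x ∈ U k := by
  have h : ∀ k, ∀ᶠ x in residual ℝ, x ∈ Set.Iio c ∪ U k := by
    intro k
    refine residual_of_dense_open (isOpen_Iio.union (hU k)) (dense_of_exists_between ?_)
    intro a b hab
    by_cases hac : a < c
    · obtain ⟨x, hx1, hx2⟩ := exists_between (lt_min hab hac)
      exact ⟨x, Or.inl (hx2.trans_le (min_le_right _ _)), hx1, hx2.trans_le (min_le_left _ _)⟩
    · obtain ⟨x, hx1, hx2⟩ := exists_between hab
      obtain ⟨y, hy, hy1, hy2⟩ := hd k x b (lt_of_le_of_lt (not_lt.1 hac) hx1) hx2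
      exact ⟨y, Or.inr hy, hx1.trans hy1, hy2⟩
  filter_upwards [eventually_countable_forall.2 h] with x hx hcx k
  rcases hx k with h1 | h1
  · exact absurd h1 (not_lt.2 hcx.le)
  · exact h1

lemma F_eq {α β : ℝ} {m p : ℕ} (hp : 1 ≤ p) (h1 : (p : ℝ) - 1 < β * α ^ (2 ^ m))
    (h2 : β * α ^ (2 ^ m) < p) : F α β m = p := by
  unfold F
  have h3 : (1 : ℝ) ≤ p := by exact_mod_cast hp
  exact (floor_iff (by linarith)).2 ⟨h1.le, h2, hp⟩

lemma pow_tendsto {α : ℝ} (hα : 1 < α) : Tendsto (fun m : ℕ => α ^ (2 ^ m)) atTop atTop :=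
  (tendsto_pow_atTop_atTop_of_one_lt hα).comp (tendsto_pow_atTop_atTop_of_one_lt (by norm_num))

theorem cat_amp {α : ℝ} (hα : 1 < α) :
    ∀ᶠ β in residual ℝ, 0 < β → ∃ᶠ m in atTop, (F α β m).Prime := by
  let U : ℕ → Set ℝ := fun k => {β | ∃ m, k ≤ m ∧ ∃ p : ℕ, p.Prime ∧
    (p : ℝ) - 1 < β * α ^ (2 ^ m) ∧ β * α ^ (2 ^ m) < p}
  have hU : ∀ k, IsOpen (U k) := by
    intro k
    have : U k = ⋃ m : ℕ, ⋃ _ : k ≤ m, ⋃ p : ℕ, ⋃ _ : p.Prime,
        {β : ℝ | (p : ℝ) - 1 < β * α ^ (2 ^ m)} ∩ {β : ℝ | β * α ^ (2 ^ m) < p} := by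
      ext β
      simp only [U, Set.mem_setOf_eq, Set.mem_iUnion, Set.mem_inter_iff, exists_prop]
    rw [this]
    refine isOpen_iUnion fun m => isOpen_iUnion fun _ => isOpen_iUnion fun p =>
      isOpen_iUnion fun _ => IsOpen.inter ?_ ?_
    · exact isOpen_lt continuous_const (by fun_prop)
    · exact isOpen_lt (by fun_prop) continuous_const
  have hd : ∀ k a b, (0 : ℝ) < a → a < b → ∃ x ∈ U k, a < x ∧ x < b := by
    intro k a b ha hab
    set c : ℝ := (a + b) / 2 with hc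
    have hc0 : 0 < c := by rw [hc]; linarith
    have hδ : 0 < b / c - 1 := by
      rw [sub_pos, lt_div_iff₀ hc0, hc]; linarith
    have ht := pow_tendsto hα
    have ht2 : Tendsto (fun m : ℕ => c * α ^ (2 ^ m)) atTop atTop := ht.const_mul_atTop hc0
    obtain ⟨m, ⟨p, hp, hp1, hp2⟩, hm, hm2⟩ := ((ht2.eventually (exists_prime_Ioc _ hδ)).and
      ((eventually_ge_atTop k).and (ht.eventually_gt_atTop (1 / (b - a))))).exists
    have hpos : 0 < α ^ (2 ^ m) := by positivity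
    refine ⟨((p : ℝ) - 1 / 2) / α ^ (2 ^ m), ⟨m, hm, p, hp, ?_, ?_⟩, ?_, ?_⟩
    · rw [div_mul_cancel₀ _ hpos.ne']; linarith
    · rw [div_mul_cancel₀ _ hpos.ne']; linarith
    · rw [lt_div_iff₀ hpos]
      rw [div_lt_iff₀ (by linarith)] at hm2
      rw [hc] at hp1
      nlinarith
    · rw [div_lt_iff₀ hpos]
      have : (1 + (b / c - 1)) * (c * α ^ (2 ^ m)) = b * α ^ (2 ^ m) := by
        field_simp
        ring
      rw [this] at hp2
      linarith
  filter_upwards [generic hU hd] with β hβ h0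
  rw [frequently_atTop]
  intro k
  obtain ⟨m, hm, p, hp, h1, h2⟩ := hβ h0 k
  exact ⟨m, hm, by rw [F_eq hp.one_lt.le h1 h2]; exact hp⟩

theorem cat_base {β : ℝ} (hβ : 0 < β) :
    ∀ᶠ α in residual ℝ, 1 < α → ∃ᶠ m in atTop, (F α β m).Prime := by
  let U : ℕ → Set ℝ := fun k => {α | ∃ m, k ≤ m ∧ ∃ p : ℕ, p.Prime ∧
    (p : ℝ) - 1 < β * α ^ (2 ^ m) ∧ β * α ^ (2 ^ m) < p}
  have hU : ∀ k, IsOpen (U k) := by
    intro k
    have : U k = ⋃ m : ℕ, ⋃ _ : k ≤ m, ⋃ p : ℕ, ⋃ _ : p.Prime,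
        {α : ℝ | (p : ℝ) - 1 < β * α ^ (2 ^ m)} ∩ {α : ℝ | β * α ^ (2 ^ m) < p} := by
      ext α
      simp only [U, Set.mem_setOf_eq, Set.mem_iUnion, Set.mem_inter_iff, exists_prop]
    rw [this]
    refine isOpen_iUnion fun m => isOpen_iUnion fun _ => isOpen_iUnion fun p =>
      isOpen_iUnion fun _ => IsOpen.inter ?_ ?_
    · exact isOpen_lt continuous_const (by fun_prop)
    · exact isOpen_lt (by fun_prop) continuous_const
  have hd : ∀ k a b, (1 : ℝ) < a → a < b → ∃ x ∈ U k, a < x ∧ x < b := by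
    intro k a b ha hab
    have ha0 : 0 < a := by linarith
    have hratio : 1 < b / a := by rw [lt_div_iff₀ ha0]; linarith
    have ht := pow_tendsto ha
    have ht2 : Tendsto (fun m : ℕ => 2 * (β * a ^ (2 ^ m))) atTop atTop :=
      (ht.const_mul_atTop hβ).const_mul_atTop (by norm_num)
    obtain ⟨m, ⟨p, hp, hp1, hp2⟩, hm, hm2, hm3⟩ := ((ht2.eventually
      (exists_prime_Ioc 1 one_pos)).and ((eventually_ge_atTop k).and
      ((ht.eventually_gt_atTop (1 / β)).and ((pow_tendsto hratio).eventually_gt_atTop 4)))).exists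
    have hn : 2 ^ m ≠ 0 := by positivity
    rw [div_lt_iff₀ hβ] at hm2
    rw [div_pow, lt_div_iff₀ (by positivity)] at hm3
    have hp3 : (p : ℝ) < β * b ^ (2 ^ m) := by nlinarith
    have hp4 : β * a ^ (2 ^ m) < (p : ℝ) - 1 / 2 := by nlinarith
    have hq : 0 < ((p : ℝ) - 1 / 2) / β := by
      apply div_pos _ hβ
      have : 0 < β * a ^ (2 ^ m) := by positivity
      linarith
    obtain ⟨x, hx0, hx⟩ : ∃ x : ℝ, 0 ≤ x ∧ x ^ (2 ^ m) = ((p : ℝ) - 1 / 2) / β :=
      ⟨(((p : ℝ) - 1 / 2) / β) ^ (((2 ^ m : ℕ) : ℝ)⁻¹), by positivity,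
        Real.rpow_inv_natCast_pow hq.le hn⟩
    have hx2 : β * x ^ (2 ^ m) = (p : ℝ) - 1 / 2 := by
      rw [hx]; field_simp
    refine ⟨x, ⟨m, hm, p, hp, ?_, ?_⟩, ?_, ?_⟩
    · rw [hx2]; linarith
    · rw [hx2]; linarith
    · refine lt_of_pow_lt_pow_left₀ (2 ^ m) hx0 ?_
      rw [hx, lt_div_iff₀ hβ]
      linarith
    · refine lt_of_pow_lt_pow_left₀ (2 ^ m) (by linarith) ?_
      rw [hx, div_lt_iff₀ hβ]
      linarith
  filter_upwards [generic hU hd] with α hα h0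
  rw [frequently_atTop]
  intro k
  obtain ⟨m, hm, p, hp, h1, h2⟩ := hα h0 k
  exact ⟨m, hm, by rw [F_eq hp.one_lt.le h1 h2]; exact hp⟩

end Pool.Agent.Run7.h330.FN
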